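import Pool.Agent.H58.PF.Targets

/-!
# SRT: finite sets can be listed in increasing order
-/

set_option autoImplicit false

namespace Pool.Agent.H54.PF

open Pool.Agent.H58.PF

theorem srt_aux {α β : Type*} [LinearOrder β] (f : α → β) (n : ℕ) : ∀ A : Finset α, A.card = n →
    (∀ s ∈ A, ∀ t ∈ A, f s = f t → s = t) →
    ∃ c : List α, (∀ t, t ∈ c ↔ t ∈ A) ∧ c.Pairwise fun s t => f s < f t := by
  classical
  induction n with
  | zero =>
    intro A hA _
    rw [Finset.card_eq_zero] at hA
    subst hA
    exact ⟨[], by simp, List.Pairwise.nil⟩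
  | succ k ih =>
    intro A hA hf
    have hne : A.Nonempty := by
      rw [← Finset.card_pos, hA]
      exact Nat.succ_pos k
    obtain ⟨m, hm, hmin⟩ := Finset.exists_min_image A f hne
    obtain ⟨c, hc1, hc2⟩ := ih (A.erase m) (by rw [Finset.card_erase_of_mem hm, hA]; rfl)
      (fun s hs t ht e => hf s (Finset.mem_of_mem_erase hs) t (Finset.mem_of_mem_erase ht) e)
    refine ⟨m :: c, ?_, ?_⟩
    · intro t
      rw [List.mem_cons, hc1, Finset.mem_erase]
      constructor
      · rintro (h | h)
        · rw [h]
          exact hm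
        · exact h.2
      · intro h
        by_cases e : t = m
        · exact Or.inl e
        · exact Or.inr ⟨e, h⟩
    · rw [List.pairwise_cons]
      refine ⟨fun t ht => ?_, hc2⟩
      have h1 := (hc1 t).1 ht
      refine lt_of_le_of_ne (hmin t (Finset.mem_of_mem_erase h1)) fun e => ?_
      exact (Finset.ne_of_mem_erase h1) (hf m hm t (Finset.mem_of_mem_erase h1) e).symm

theorem srt : T_SRT := fun _ f A hf => srt_aux f A.card A rfl hf

end Pool.Agent.H54.PF
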